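import Pool.Agent.Helper689.RS4

set_option autoImplicit false

namespace Pool.Agent.Results.MP_4ef84e_co.RowSparseLower

open Finset Filter Pool.Agent.Helper689.RS0 Pool.Agent.Helper689.RS2 Pool.Agent.Helper689.RS3
  Pool.Agent.Helper689.RS4

theorem explicit {d k u : ℕ} (hd : 2 ≤ d) (hk : 4 ≤ k) (hu : 4 ≤ u) (hdu : d ≤ u)
    (hstar : (2 : ℝ) ^ (d + 6) * (d + 5) * (((k * (3 * d + 1) : ℕ) : ℝ) * Real.log u + 2) ≤ u) :
    ∃ M : Fin (u ^ (k * (d + 1))) → Fin (u ^ (k * (d + 1))) → Bool,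
      RowSparse d M ∧ ¬ IsRamsey M (u ^ (k * (3 * d + 1) - 7)) := by
  obtain ⟨a, ha⟩ : ∃ a, a = k * d := ⟨_, rfl⟩
  have ha1 : 2 * k ≤ a := by rw [ha]; nlinarith
  have e1 : k * (d + 1) = a + k := by rw [ha]; ring
  have e2 : k * (3 * d + 1) = 3 * a + k := by rw [ha]; ring
  rw [e2] at hstar
  rw [e1, e2]
  have hu0 : 0 < u := by omega
  have huR : (4 : ℝ) ≤ u := by exact_mod_cast hu
  have huR0 : (0 : ℝ) < u := by linarith
  set Λ : ℝ := ((3 * a + k : ℕ) : ℝ) * Real.log u with hΛ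
  have hexp : Real.exp Λ = (u : ℝ) ^ (3 * a + k) := by
    rw [hΛ, Real.exp_nat_mul, Real.exp_log huR0]
  have hΛ0 : 0 ≤ Λ := mul_nonneg (by positivity) (Real.log_nonneg (by linarith))
  have hpow : ∀ b c : ℕ, b ≤ c → u ^ b ≤ u ^ c := fun b c h => Nat.pow_le_pow_right hu0 h
  have hcast : ∀ b : ℕ, b ≤ 3 * a + k → ((u ^ b : ℕ) : ℝ) ≤ Real.exp Λ := by
    intro b hb
    rw [hexp]
    exact_mod_cast hpow _ _ hb
  have hN : u ^ (a + k - 2) * u ^ (a - 2) * u ^ (a - 3) = u ^ (3 * a + k - 7) := by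
    rw [← pow_add, ← pow_add]; congr 1; omega
  have hnum := numerics (d := d) (m := u ^ (k + 1)) (T := u ^ (a + k - 2)) (t := u ^ (a - 2))
    (u := u) (q := u ^ k) (n := u ^ (a + k))
    (N := u ^ (a + k - 2) * u ^ (a - 2) * u ^ (a - 3)) (Λ := Λ) (p := (1 / 2 : ℝ) ^ (d + 1)) rfl hΛ0
    (by rw [hN]; exact hcast _ (by omega)) (hcast _ (by omega)) (hcast _ (by omega))
    (by
      have h1 : u ^ (a + k) + 1 ≤ u ^ (a + k + 1) := by
        have h2 : 1 ≤ u ^ (a + k) := Nat.one_le_pow _ _ hu0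
        calc u ^ (a + k) + 1 ≤ u ^ (a + k) * 2 := by omega
          _ ≤ u ^ (a + k) * u := Nat.mul_le_mul_left _ (by omega)
          _ = u ^ (a + k + 1) := (pow_succ _ _).symm
      refine le_trans ?_ (hcast (a + k + 1) (by omega))
      exact_mod_cast h1)
    (pow_succ _ _) (Nat.pow_pos hu0) hu0 (Nat.pow_pos hu0)
    (by rw [← pow_add]; congr 1; omega)
    (by
      rw [← pow_succ, ← pow_succ, ← pow_add]; congr 1; omega)
    (hpow _ _ (by omega)) (hpow _ _ (by omega)) hstar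
  obtain ⟨η, w, hw⟩ := exists_word (T := u ^ (a + k - 2)) (t := u ^ (a - 2)) (s := u ^ (a - 3))
    (q := u ^ k) (m := u ^ (k + 1)) (n := u ^ (a + k)) (d := d) (B := u) (K := u ^ (k + 1))
    (N := u ^ (a + k - 2) * u ^ (a - 2) * u ^ (a - 3))
    (γ₁ := (1 / 2 : ℝ) ^ (d + 1) / 4) (γ₂ := 1 / (4 * (u ^ k : ℕ))) (p := (1 / 2 : ℝ) ^ (d + 1))
    (Nat.pow_pos hu0) (Nat.pow_pos hu0) (by omega)
    (by
      calc 2 ≤ u ^ 1 := by rw [pow_one]; omega
        _ ≤ u ^ k := hpow _ _ (by omega))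
    hu0 (by positivity) (by positivity)
    (by
      have h1 : ((u ^ (a - 2) : ℕ) : ℝ) * (1 / (u ^ k : ℕ) : ℝ) ^ d = 1 / (u : ℝ) ^ 2 := by
        push_cast
        rw [div_pow, one_pow, ← pow_mul, ← ha]
        have : (u : ℝ) ^ a = (u : ℝ) ^ (a - 2) * (u : ℝ) ^ 2 := by
          rw [← pow_add]; congr 1; omega
        rw [this]
        field_simp
      rw [h1, pow_succ]
      have h2 : 1 / (u : ℝ) ^ 2 ≤ 1 / 2 := by
        apply one_div_le_one_div_of_le (by norm_num)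
        nlinarith
      have h3 : (0 : ℝ) < (1 / 2 : ℝ) ^ d := by positivity
      have h4 : (1 : ℝ) / 2 ≤ 1 - 1 / (u : ℝ) ^ 2 := by linarith
      exact mul_le_mul_of_nonneg_left h4 h3.le)
    (by
      rw [le_div_iff₀ (by positivity)]
      have h1 : u ^ (k + 1) * u ^ (a - 3) * (4 * u) ≤ u ^ (a + k) := by
        calc u ^ (k + 1) * u ^ (a - 3) * (4 * u) ≤ u ^ (k + 1) * u ^ (a - 3) * (u * u) := by gcongr
          _ = u ^ (a + k) := by
            rw [← pow_add, ← pow_two, ← pow_add]; congr 1; omega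
      exact_mod_cast h1)
    hnum.1 (Nat.pow_pos hu0) hnum.2
  have hdm : d * u ^ (k + 1) ≤ u ^ (a + k) := by
    calc d * u ^ (k + 1) ≤ u * u ^ (k + 1) := by gcongr
      _ = u ^ (k + 2) := by rw [← pow_succ']
      _ ≤ u ^ (a + k) := hpow _ _ (by omega)
  have := word_to_matrix (Nat.pow_pos hu0) (by omega) hdm η w hw
  rwa [hN] at this

/-- **Lower bound for `f_d`.** For every `d ≥ 2` and `ε > 0`, `f_d(n) ≥ n^(3 - 2/(d+1) - ε)` for all
large `n`; in particular `f_2(n) ≥ n^(7/3 - ε)`, `f_3(n) ≥ n^(5/2 - ε)`. -/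
theorem result :
    ∀ d : ℕ, 2 ≤ d → ∀ ε : ℝ, 0 < ε → ∃ n₀ : ℕ, ∀ n : ℕ, n₀ ≤ n →
      (n : ℝ) ^ (3 - 2 / ((d : ℝ) + 1) - ε) < (f d n : ℝ) := by
  intro d hd ε hε
  obtain ⟨k1, hk1⟩ := exists_nat_gt (8 / ε)
  obtain ⟨k, hk4, hkε⟩ : ∃ k : ℕ, 4 ≤ k ∧ 8 ≤ (k : ℝ) * ε := by
    refine ⟨max 4 k1, le_max_left _ _, ?_⟩
    have h1 : (k1 : ℝ) ≤ ((max 4 k1 : ℕ) : ℝ) := by exact_mod_cast le_max_right _ _
    have h2 : 8 / ε ≤ ((max 4 k1 : ℕ) : ℝ) := hk1.le.trans h1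
    rwa [div_le_iff₀ hε] at h2
  set D : ℕ := k * (3 * d + 1) with hD
  set E : ℕ := k * (d + 1) with hE
  have hE0 : 0 < E := by rw [hE]; positivity
  have hER : (0 : ℝ) < E := by exact_mod_cast hE0
  have hD8 : 8 ≤ D := by rw [hD]; nlinarith
  -- all large u are good
  have hlog : ∀ᶠ x : ℝ in atTop, (2 : ℝ) ^ (d + 6) * (d + 5) * ((D : ℝ) * Real.log x + 2) ≤ x := by
    have h1 : ∀ᶠ x : ℝ in atTop, (2 : ℝ) ^ (d + 6) * (d + 5) * D * Real.log x ≤ x / 2 := by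
      have h := Real.isLittleO_log_id_atTop.def
        (c := 1 / (2 * ((2 : ℝ) ^ (d + 6) * (d + 5) * (D + 1)))) (by positivity)
      filter_upwards [h, eventually_ge_atTop (1 : ℝ)] with x hx hx1
      rw [id, Real.norm_of_nonneg (Real.log_nonneg hx1), Real.norm_of_nonneg (by linarith)] at hx
      have h3 : 0 ≤ Real.log x := Real.log_nonneg hx1
      have h4 : (0 : ℝ) < 2 ^ (d + 6) * (d + 5) * (D + 1) := by positivity
      calc (2 : ℝ) ^ (d + 6) * (d + 5) * D * Real.log x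
          ≤ (2 : ℝ) ^ (d + 6) * (d + 5) * (D + 1) * Real.log x := by gcongr; linarith
        _ ≤ (2 : ℝ) ^ (d + 6) * (d + 5) * (D + 1) *
            (1 / (2 * ((2 : ℝ) ^ (d + 6) * (d + 5) * (D + 1))) * x) := by gcongr
        _ = x / 2 := by field_simp
    filter_upwards [h1, eventually_ge_atTop (2 * ((2 : ℝ) ^ (d + 6) * (d + 5) * 2))] with x hx hx2
    calc (2 : ℝ) ^ (d + 6) * (d + 5) * ((D : ℝ) * Real.log x + 2)
        = (2 : ℝ) ^ (d + 6) * (d + 5) * D * Real.log x + (2 : ℝ) ^ (d + 6) * (d + 5) * 2 := by ring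
      _ ≤ x / 2 + x / 2 := by linarith
      _ = x := by ring
  obtain ⟨x0, hx0⟩ := eventually_atTop.1 hlog
  obtain ⟨U1, hU1⟩ := exists_nat_gt x0
  set U0 : ℕ := max (max U1 4) (max d (2 ^ D)) with hU0
  refine ⟨U0 ^ E, fun n hn => ?_⟩
  have hU04 : 4 ≤ U0 := le_trans (le_max_right _ _) (le_max_left _ _)
  have hn1 : 1 ≤ n := le_trans (Nat.one_le_pow _ _ (by omega)) hn
  have hnR : (1 : ℝ) ≤ n := by exact_mod_cast hn1
  -- the root
  obtain ⟨u, huU, hun, hnu⟩ : ∃ u : ℕ, U0 ≤ u ∧ u ^ E ≤ n ∧ n < (u + 1) ^ E := by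
    have hle : U0 ≤ n := by
      calc U0 = U0 ^ 1 := (pow_one _).symm
        _ ≤ U0 ^ E := Nat.pow_le_pow_right (by omega) hE0
        _ ≤ n := hn
    have hP : (Nat.findGreatest (fun u => u ^ E ≤ n) n) ^ E ≤ n :=
      Nat.findGreatest_spec (P := fun u => u ^ E ≤ n) hle hn
    refine ⟨Nat.findGreatest (fun u => u ^ E ≤ n) n, Nat.le_findGreatest hle hn, hP, ?_⟩
    by_contra hcon
    push Not at hcon
    have h3 : Nat.findGreatest (fun u => u ^ E ≤ n) n + 1 ≤ n := by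
      calc Nat.findGreatest (fun u => u ^ E ≤ n) n + 1
          = (Nat.findGreatest (fun u => u ^ E ≤ n) n + 1) ^ 1 := (pow_one _).symm
        _ ≤ (Nat.findGreatest (fun u => u ^ E ≤ n) n + 1) ^ E :=
            Nat.pow_le_pow_right (by omega) hE0
        _ ≤ n := hcon
    have h4 := Nat.le_findGreatest (P := fun u => u ^ E ≤ n) h3 hcon
    omega
  have hu4 : 4 ≤ u := hU04.trans huU
  have hdu : d ≤ u := le_trans (le_trans (le_max_left _ _) (le_max_right _ _)) huU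
  have h2D : 2 ^ D ≤ u := le_trans (le_trans (le_max_right _ _) (le_max_right _ _)) huU
  have hU1u : (U1 : ℝ) ≤ u := by
    have : U1 ≤ u := le_trans (le_trans (le_max_left _ _) (le_max_left _ _)) huU
    exact_mod_cast this
  obtain ⟨M, hM, hMR⟩ := explicit hd hk4 hu4 hdu (hx0 u (by linarith))
  obtain ⟨M', hM', hMR'⟩ := pad hun hM hMR
  have hlt : u ^ (D - 7) < f d n := lt_f hn1 hM' hMR'
  have hltR : ((u ^ (D - 7) : ℕ) : ℝ) < (f d n : ℝ) := by exact_mod_cast hlt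
  refine lt_of_le_of_lt ?_ hltR
  -- comparison
  have huR : (4 : ℝ) ≤ u := by exact_mod_cast hu4
  have hdR : (0 : ℝ) < (d : ℝ) + 1 := by positivity
  have he : 3 - 2 / ((d : ℝ) + 1) - ε ≤ ((D - 8 : ℕ) : ℝ) / E := by
    rw [le_div_iff₀ hER]
    have h1 : (E : ℝ) = k * (d + 1) := by rw [hE]; push_cast; ring
    have h2 : ((D - 8 : ℕ) : ℝ) = k * (3 * d + 1) - 8 := by
      rw [Nat.cast_sub hD8, hD]; push_cast; ring
    rw [h1, h2]
    have h3 : (3 - 2 / ((d : ℝ) + 1) - ε) * (k * (d + 1)) =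
        k * (3 * d + 1) - (k * ε) * (d + 1) := by field_simp; ring
    rw [h3]
    have h4 : (1 : ℝ) ≤ (d : ℝ) + 1 := by linarith [show (0 : ℝ) ≤ d by positivity]
    nlinarith
  calc (n : ℝ) ^ (3 - 2 / ((d : ℝ) + 1) - ε) ≤ (n : ℝ) ^ (((D - 8 : ℕ) : ℝ) / E) :=
        Real.rpow_le_rpow_of_exponent_le hnR he
    _ ≤ ((2 * u : ℝ) ^ E) ^ (((D - 8 : ℕ) : ℝ) / E) := by
        apply Real.rpow_le_rpow (by linarith) _ (by positivity)
        have h1 : (n : ℝ) ≤ ((u : ℝ) + 1) ^ E := by exact_mod_cast hnu.le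
        refine h1.trans ?_
        gcongr
        linarith
    _ = (2 * u : ℝ) ^ (D - 8) := by
        rw [← Real.rpow_natCast, ← Real.rpow_mul (by positivity), mul_div_cancel₀ _ hER.ne',
          Real.rpow_natCast]
    _ ≤ ((u ^ (D - 7) : ℕ) : ℝ) := by
        rw [mul_pow]
        have h1 : (2 : ℝ) ^ (D - 8) ≤ u := by
          have : 2 ^ (D - 8) ≤ u := le_trans (Nat.pow_le_pow_right (by norm_num) (by omega)) h2D
          exact_mod_cast this
        have h2 : ((u ^ (D - 7) : ℕ) : ℝ) = (u : ℝ) * (u : ℝ) ^ (D - 8) := by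
          push_cast
          rw [← pow_succ']; congr 1; omega
        rw [h2]
        gcongr

end Pool.Agent.Results.MP_4ef84e_co.RowSparseLower
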