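import Mathlib

set_option autoImplicit false

namespace Pool.Agent.Results.MP_4ef84e_co.RowSparseUpper

open Finset

/-- `N` has the Ramsey property for the `n × n` 0-1 matrix `M`: every 2-colouring of the entries of
the `N × N` all-ones matrix contains a monochromatic copy of `M`, that is, increasing rows `r` and
columns `s` such that all entries `(r a, s b)` with `M a b = 1` have the same colour. -/
def IsRamsey {n : ℕ} (M : Fin n → Fin n → Bool) (N : ℕ) : Prop :=
  ∀ c : Fin N → Fin N → Bool, ∃ r s : Fin n → Fin N, StrictMono r ∧ StrictMono s ∧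
    ∃ col : Bool, ∀ a b, M a b = true → c (r a) (s b) = col

/-- The Ramsey number `R(M)`. -/
noncomputable def R {n : ℕ} (M : Fin n → Fin n → Bool) : ℕ := sInf {N | IsRamsey M N}

/-- At most `d` 1-entries in each row. -/
def RowSparse {n : ℕ} (d : ℕ) (M : Fin n → Fin n → Bool) : Prop :=
  ∀ a, (univ.filter (fun b => M a b = true)).card ≤ d

/-- `f_d(n)`, the maximum of `R(M)` over `n × n` matrices with at most `d` 1-entries per row. -/
noncomputable def f (d n : ℕ) : ℕ :=
  open Classical in (univ.filter (fun M : Fin n → Fin n → Bool => RowSparse d M)).sup R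

section tree
variable {U V : Type} [Fintype U] [DecidableEq U] [Fintype V] [DecidableEq V]

/-- the bad prefixes; `k` columns remain, starting with column `c` -/
def Bad (red : U → V → Prop) (n : ℕ) (C : ℕ → Finset V) (e : ℕ → Prop) (X : Finset U) :
    ℕ → ℕ → (ℕ → V) → Prop
  | 0, _, y => ∀ x ∈ X, ∃ c', c' < n ∧ e c' ∧ ¬ red x (y c')
  | k + 1, c, y =>
    (e c → ∃ Z ⊆ C c, Z.card = n ∧ ∀ y' ∈ Z, Bad red n C e X k (c + 1) (Function.update y c y')) ∧
    (¬ e c → Bad red n C e X k (c + 1) y)

variable {red : U → V → Prop} {n : ℕ} {C : ℕ → Finset V} {e : ℕ → Prop}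

omit [Fintype U] [DecidableEq U] [Fintype V] [DecidableEq V] in
lemma bad_mono {X X' : Finset U} (h : X' ⊆ X) : ∀ (k c : ℕ) (y : ℕ → V),
    Bad red n C e X k c y → Bad red n C e X' k c y := by
  intro k
  induction k with
  | zero => intro c y hb x hx; exact hb x (h hx)
  | succ k ih =>
    intro c y hb
    refine ⟨fun he => ?_, fun he => ih _ _ (hb.2 he)⟩
    obtain ⟨Z, hZ, hZn, hZb⟩ := hb.1 he
    exact ⟨Z, hZ, hZn, fun y' hy' => ih _ _ (hZb y' hy')⟩

omit [Fintype U] [DecidableEq U] [Fintype V] [DecidableEq V] in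
lemma bad_update {X : Finset U} {c0 : ℕ} (he0 : ¬ e c0) (v : V) : ∀ (k c : ℕ) (y : ℕ → V), c0 < c →
    (Bad red n C e X k c (Function.update y c0 v) ↔ Bad red n C e X k c y) := by
  intro k
  induction k with
  | zero =>
    intro c y hc
    unfold Bad
    have : ∀ c', e c' → Function.update y c0 v c' = y c' := by
      intro c' hc'
      apply Function.update_of_ne
      rintro rfl
      exact he0 hc'
    constructor
    · intro h x hx
      obtain ⟨c', h1, h2, h3⟩ := h x hx
      exact ⟨c', h1, h2, by rwa [this c' h2] at h3⟩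
    · intro h x hx
      obtain ⟨c', h1, h2, h3⟩ := h x hx
      exact ⟨c', h1, h2, by rwa [this c' h2]⟩
  | succ k ih =>
    intro c y hc
    have hcomm : ∀ y', Function.update (Function.update y c0 v) c y' =
        Function.update (Function.update y c y') c0 v := fun y' => Function.update_comm (by omega) _ _ _
    unfold Bad
    simp only [hcomm, ih (c + 1) _ (show c0 < c + 1 by omega)]

/-- the number of 1-entries among the columns `c, …, c+k-1` -/
noncomputable def cnt (e : ℕ → Prop) : ℕ → ℕ → ℕ
  | 0, _ => 0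
  | k + 1, c => open Classical in (if e c then 1 else 0) + cnt e k (c + 1)

lemma blue (hn : 1 ≤ n) : ∀ (k c : ℕ) (y : ℕ → V) (X : Finset U), c + k = n →
    (∀ x ∈ X, ∀ c' < c, e c' → red x (y c')) → Bad red n C e X k c y → n ^ cnt e k c ≤ X.card →
    ∃ (P : Finset U) (Q : Finset V), P.card = n ∧ Q.card = n ∧ ∀ x ∈ P, ∀ z ∈ Q, ¬ red x z := by
  classical
  intro k
  induction k with
  | zero =>
    intro c y X hck hinv hbad hcard
    have : X.Nonempty := by
      rw [← card_pos]
      have : 0 < n ^ cnt e 0 c := Nat.pow_pos hn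
      omega
    obtain ⟨x, hx⟩ := this
    obtain ⟨c', h1, h2, h3⟩ := hbad x hx
    exact absurd (hinv x hx c' (by omega) h2) h3
  | succ k ih =>
    intro c y X hck hinv hbad hcard
    by_cases he : e c
    · obtain ⟨Z, hZ, hZn, hZb⟩ := hbad.1 he
      have hcnt : cnt e (k + 1) c = cnt e k (c + 1) + 1 := by
        simp only [cnt, he, if_true]; ring
      rw [hcnt, pow_succ] at hcard
      by_cases hex : ∃ y' ∈ Z, n ^ cnt e k (c + 1) ≤ (X.filter (fun x => red x y')).card
      · obtain ⟨y', hy', hy2⟩ := hex
        refine ih (c + 1) (Function.update y c y') _ (by omega) ?_ (bad_mono (filter_subset _ _) _ _ _ (hZb y' hy')) hy2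
        intro x hx c' hc' hec'
        rw [mem_filter] at hx
        rcases Nat.lt_succ_iff_lt_or_eq.mp hc' with h | rfl
        · rw [Function.update_of_ne (by omega)]
          exact hinv x hx.1 c' h hec'
        · rw [Function.update_self]; exact hx.2
      · push Not at hex
        -- rows blue on all of `Z`
        let B := X.filter (fun x => ∀ z ∈ Z, ¬ red x z)
        have hB : n ≤ B.card := by
          have h1 : X ⊆ B ∪ Z.biUnion (fun z => X.filter (fun x => red x z)) := by
            intro x hx
            rw [mem_union, mem_biUnion]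
            by_cases h : ∀ z ∈ Z, ¬ red x z
            · left; exact mem_filter.2 ⟨hx, h⟩
            · right
              push Not at h
              obtain ⟨z, hz, hz2⟩ := h
              exact ⟨z, hz, mem_filter.2 ⟨hx, hz2⟩⟩
          have h2 := card_le_card h1
          have h3 := card_union_le B (Z.biUnion (fun z => X.filter (fun x => red x z)))
          have h4 : (Z.biUnion (fun z => X.filter (fun x => red x z))).card ≤ n * (n ^ cnt e k (c + 1) - 1) := by
            rw [← hZn]
            apply card_biUnion_le_card_mul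
            intro z hz
            have := hex z hz
            rw [hZn]
            omega
          have h5 : n * (n ^ cnt e k (c + 1) - 1) + n = n ^ cnt e k (c + 1) * n := by
            have : 1 ≤ n ^ cnt e k (c + 1) := Nat.one_le_pow _ _ hn
            obtain ⟨m, hm⟩ := Nat.exists_eq_add_of_le this
            rw [hm, Nat.add_sub_cancel_left]
            ring
          omega
        obtain ⟨P, hP, hPn⟩ := exists_subset_card_eq hB
        exact ⟨P, Z, hPn, hZn, fun x hx z hz => (mem_filter.1 (hP hx)).2 z hz⟩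
    · have hcnt : cnt e (k + 1) c = cnt e k (c + 1) := by
        simp only [cnt, he, if_false]; ring
      rw [hcnt] at hcard
      refine ih (c + 1) y X (by omega) ?_ (hbad.2 he) hcard
      intro x hx c' hc' hec'
      rcases Nat.lt_succ_iff_lt_or_eq.mp hc' with h | rfl
      · exact hinv x hx c' h hec'
      · exact absurd hec' he

end tree

section greedy
variable {U V : Type} [Fintype U] [DecidableEq U] [Fintype V] [DecidableEq V]

lemma greedy {red : U → V → Prop} {n : ℕ} {C : ℕ → Finset V} {E : Fin n → ℕ → Prop} {X : Fin n → Finset U}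
    (hC : ∀ c < n, (n - 1) * (open Classical in (univ.filter (fun i => E i c)).card) < (C c).card)
    (y0 : ℕ → V) (h0 : ∀ i, ¬ Bad red n C (E i) (X i) n 0 y0) :
    ∃ y : ℕ → V, (∀ c < n, y c ∈ C c) ∧ ∀ i, ∃ x ∈ X i, ∀ c < n, E i c → red x (y c) := by
  classical
  have key : ∀ c, c ≤ n → ∃ y : ℕ → V, (∀ c' < c, y c' ∈ C c') ∧ ∀ i, ¬ Bad red n C (E i) (X i) (n - c) c y := by
    intro c
    induction c with
    | zero => intro _; exact ⟨y0, by intro c' hc'; omega, by simpa using h0⟩
    | succ c ih =>
      intro hc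
      obtain ⟨y, hy, hb⟩ := ih (by omega)
      have hk : n - c = (n - (c + 1)) + 1 := by omega
      rw [hk] at hb
      -- forbidden choices
      let F : Fin n → Finset V := fun i => (C c).filter (fun y' => Bad red n C (E i) (X i) (n - (c + 1)) (c + 1) (Function.update y c y'))
      have hF : ∀ i, E i c → (F i).card ≤ n - 1 := by
        intro i hi
        by_contra hcon
        push Not at hcon
        obtain ⟨Z, hZ, hZn⟩ := exists_subset_card_eq (show n ≤ (F i).card by omega)
        apply hb i
        refine ⟨fun _ => ⟨Z, hZ.trans (filter_subset _ _), hZn, fun y' hy' => (mem_filter.1 (hZ hy')).2⟩,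
          fun h => absurd hi h⟩
      have hU : ((univ.filter (fun i => E i c)).biUnion F).card < (C c).card := by
        refine lt_of_le_of_lt ?_ (hC c (by omega))
        rw [mul_comm]
        apply card_biUnion_le_card_mul
        intro i hi
        exact hF i (mem_filter.1 hi).2
      obtain ⟨v, hv, hv2⟩ := exists_mem_notMem_of_card_lt_card hU
      refine ⟨Function.update y c v, ?_, ?_⟩
      · intro c' hc'
        rcases Nat.lt_succ_iff_lt_or_eq.mp hc' with h | rfl
        · rw [Function.update_of_ne (by omega)]; exact hy c' h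
        · rw [Function.update_self]; exact hv
      · intro i
        by_cases hi : E i c
        · intro hbad
          apply hv2
          rw [mem_biUnion]
          exact ⟨i, mem_filter.2 ⟨mem_univ _, hi⟩, mem_filter.2 ⟨hv, hbad⟩⟩
        · rw [bad_update hi v _ _ _ (by omega)]
          intro hbad
          exact hb i ⟨fun h => absurd h hi, fun _ => hbad⟩
  obtain ⟨y, hy, hb⟩ := key n le_rfl
  refine ⟨y, hy, fun i => ?_⟩
  have := hb i
  rw [Nat.sub_self] at this
  unfold Bad at this
  push Not at this
  exact this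

end greedy

/-- consecutive intervals with prescribed sizes -/
lemma intervals {n N : ℕ} (w : ℕ → ℕ) (hw : ∑ c ∈ range n, w c ≤ N) :
    ∃ C : ℕ → Finset (Fin N), (∀ c < n, (C c).card = w c) ∧
      ∀ c c', c < c' → ∀ x ∈ C c, ∀ y ∈ C c', x < y := by
  let S : ℕ → ℕ := fun c => ∑ j ∈ range c, w j
  have hS : ∀ c c', c ≤ c' → S c ≤ S c' := fun c c' h =>
    Finset.sum_le_sum_of_subset (range_mono h)
  refine ⟨fun c => univ.filter (fun x : Fin N => S c ≤ (x : ℕ) ∧ (x : ℕ) < S (c + 1)), ?_, ?_⟩
  · intro c hc
    have h1 : S (c + 1) ≤ N := (hS _ _ hc).trans hw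
    have h2 : S (c + 1) = S c + w c := sum_range_succ _ _
    have h3 : (univ.filter (fun x : Fin N => S c ≤ (x : ℕ) ∧ (x : ℕ) < S (c + 1))).card =
        (Finset.Ico (S c) (S (c + 1))).card := by
      refine Finset.card_bij (fun x _ => (x : ℕ)) ?_ ?_ ?_
      · intro x hx; simpa using hx
      · intro x _ y _ h; exact Fin.ext h
      · intro b hb
        rw [mem_Ico] at hb
        exact ⟨⟨b, by omega⟩, by simpa using hb, rfl⟩
    rw [h3, Nat.card_Ico]
    omega
  · intro c c' hcc x hx y hy
    simp only [mem_filter, mem_univ, true_and] at hx hy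
    have := hS (c + 1) c' hcc
    rw [Fin.lt_def]
    omega

/-- red copy of `M` or a blue all-ones matrix -/
theorem main {n : ℕ} (hn : 1 ≤ n) {d : ℕ} {M : Fin n → Fin n → Bool} (hM : RowSparse d M)
    (red : Fin (n ^ (d + 1)) → Fin (n ^ (d + 1)) → Prop) :
    (∃ r s : Fin n → Fin (n ^ (d + 1)), StrictMono r ∧ StrictMono s ∧ ∀ a b, M a b = true → red (r a) (s b)) ∨
    (∃ r s : Fin n → Fin (n ^ (d + 1)), StrictMono r ∧ StrictMono s ∧ ∀ a b, ¬ red (r a) (s b)) := by
  classical
  let E : Fin n → ℕ → Prop := fun i c => ∃ h : c < n, M i ⟨c, h⟩ = true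
  let w : ℕ → ℕ := fun c => (n - 1) * (univ.filter (fun i => E i c)).card + 1
  -- rows
  obtain ⟨X, hXc, hXo⟩ := intervals (n := n) (N := n ^ (d + 1)) (fun _ => n ^ d) (by
    rw [sum_const, card_range, smul_eq_mul, pow_succ, mul_comm])
  -- columns
  have hsum : ∑ c ∈ range n, w c ≤ n ^ (d + 1) := by
    have h1 : ∑ c ∈ range n, (univ.filter (fun i => E i c)).card = ∑ i : Fin n, ((range n).filter (fun c => E i c)).card := by
      simp only [card_filter]
      exact sum_comm
    have h2 : ∀ i : Fin n, ((range n).filter (fun c => E i c)).card ≤ d := by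
      intro i
      refine le_trans ?_ (hM i)
      refine Finset.card_le_card_of_injOn (fun c => if h : c < n then ⟨c, h⟩ else ⟨0, hn⟩) ?_ ?_
      · intro c hc
        simp only [coe_filter, mem_range, Set.mem_ofPred_eq] at hc
        obtain ⟨h, hh⟩ := hc.2
        simp [h, hh]
      · intro c hc c' hc' heq
        simp only [coe_filter, mem_range, Set.mem_ofPred_eq] at hc hc'
        simp only [hc.1, hc'.1, dif_pos, Fin.mk.injEq] at heq
        exact heq
    have h3 : ∑ i : Fin n, ((range n).filter (fun c => E i c)).card ≤ n * d := by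
      refine (sum_le_sum fun i _ => h2 i).trans ?_
      simp
    have h4 : ∑ c ∈ range n, w c = (n - 1) * (∑ c ∈ range n, (univ.filter (fun i => E i c)).card) + n := by
      simp only [w, sum_add_distrib, ← mul_sum]
      simp
    rw [h4, h1]
    have h5 : (n - 1) * d + 1 ≤ n ^ d := by
      have := one_add_mul_le_pow (show (-2 : ℤ) ≤ ((n - 1 : ℕ) : ℤ) by omega) d
      have e : (1 : ℤ) + ((n - 1 : ℕ) : ℤ) = n := by
        push_cast [hn]; ring
      rw [e] at this
      have h6 : ((d * (n - 1) + 1 : ℕ) : ℤ) ≤ ((n ^ d : ℕ) : ℤ) := by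
        push_cast
        linarith
      have h7 : d * (n - 1) + 1 ≤ n ^ d := by exact_mod_cast h6
      rw [mul_comm]; exact h7
    calc (n - 1) * (∑ i : Fin n, ((range n).filter (fun c => E i c)).card) + n ≤ (n - 1) * (n * d) + n := by
          gcongr
      _ = ((n - 1) * d + 1) * n := by ring
      _ ≤ n ^ d * n := Nat.mul_le_mul_right _ h5
      _ = n ^ (d + 1) := (pow_succ _ _).symm
  obtain ⟨C, hCc, hCo⟩ := intervals (n := n) (N := n ^ (d + 1)) w hsum
  have hN : 0 < n ^ (d + 1) := Nat.pow_pos hn
  let y0 : ℕ → Fin (n ^ (d + 1)) := fun _ => ⟨0, hN⟩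
  by_cases hall : ∀ i : Fin n, ¬ Bad red n C (E i) (X i) n 0 y0
  · left
    obtain ⟨y, hy, hx⟩ := greedy (red := red) (C := C) (E := E) (X := fun i => X i) (by
      intro c hc
      rw [hCc c hc]
      simp only [w]
      convert Nat.lt_succ_self _) y0 hall
    choose x hxX hxr using hx
    refine ⟨x, fun c => y c, ?_, ?_, ?_⟩
    · intro a b hab
      exact hXo a b hab _ (hxX a) _ (hxX b)
    · intro a b hab
      exact hCo a b hab _ (hy a a.2) _ (hy b b.2)
    · intro a b hab
      exact hxr a b b.2 ⟨b.2, hab⟩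
  · right
    push Not at hall
    obtain ⟨i, hi⟩ := hall
    have hcnt : ∀ (k c : ℕ), cnt (E i) k c = ((Ico c (c + k)).filter (fun c' => E i c')).card := by
      intro k
      induction k with
      | zero => intro c; simp [cnt]
      | succ k ih =>
        intro c
        have h1 : Ico c (c + (k + 1)) = insert c (Ico (c + 1) (c + 1 + k)) := by
          ext x; simp only [mem_Ico, mem_insert]; omega
        rw [h1, filter_insert]
        simp only [cnt]
        rw [ih (c + 1)]
        split_ifs with h
        · rw [card_insert_of_notMem (by simp)]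
          ring
        · ring
    have hd : cnt (E i) n 0 ≤ d := by
      rw [hcnt]
      refine le_trans ?_ (hM i)
      refine Finset.card_le_card_of_injOn (fun c => if h : c < n then ⟨c, h⟩ else ⟨0, hn⟩) ?_ ?_
      · intro c hc
        simp only [coe_filter, mem_Ico, Set.mem_ofPred_eq] at hc
        obtain ⟨h, hh⟩ := hc.2
        simp [h, hh]
      · intro c hc c' hc' heq
        simp only [coe_filter, mem_Ico, Set.mem_ofPred_eq] at hc hc'
        have h1 : c < n := by omega
        have h2 : c' < n := by omega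
        simp only [h1, h2, dif_pos, Fin.mk.injEq] at heq
        exact heq
    obtain ⟨P, Q, hP, hQ, hPQ⟩ := blue (red := red) (C := C) (e := E i) hn n 0 y0 (X i) (by omega)
      (by intro x _ c' hc'; omega) hi (by
        rw [hXc i i.2]
        exact Nat.pow_le_pow_right hn hd)
    refine ⟨P.orderEmbOfFin hP, Q.orderEmbOfFin hQ, (P.orderEmbOfFin hP).strictMono, (Q.orderEmbOfFin hQ).strictMono, ?_⟩
    intro a b
    exact hPQ _ (P.orderEmbOfFin_mem hP a) _ (Q.orderEmbOfFin_mem hQ b)

theorem isRamsey {n : ℕ} (hn : 1 ≤ n) {d : ℕ} {M : Fin n → Fin n → Bool} (hM : RowSparse d M) :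
    IsRamsey M (n ^ (d + 1)) := by
  intro c
  rcases main hn hM (fun x y => c x y = true) with ⟨r, s, hr, hs, h⟩ | ⟨r, s, hr, hs, h⟩
  · exact ⟨r, s, hr, hs, true, h⟩
  · exact ⟨r, s, hr, hs, false, fun a b _ => by simpa using h a b⟩

/-- For every `d` and `n ≥ 1`: every `n × n` matrix `M` with at most `d` 1-entries per row has
`R(M) ≤ n^(d+1)`, so `f_d(n) ≤ n^(d+1)`; in fact every 2-colouring of `J_{n^(d+1)}` contains a red
copy of `M` or a blue copy of the all-ones matrix `J_n`. -/
theorem result :
    (∀ n d : ℕ, 1 ≤ n → ∀ M : Fin n → Fin n → Bool, RowSparse d M →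
      IsLeast {N | IsRamsey M N} (R M) ∧ R M ≤ n ^ (d + 1)) ∧
    (∀ n d : ℕ, 1 ≤ n → f d n ≤ n ^ (d + 1)) ∧
    (∀ n d : ℕ, 1 ≤ n → ∀ M : Fin n → Fin n → Bool, RowSparse d M →
      ∀ red : Fin (n ^ (d + 1)) → Fin (n ^ (d + 1)) → Prop,
        (∃ r s : Fin n → Fin (n ^ (d + 1)), StrictMono r ∧ StrictMono s ∧
          ∀ a b, M a b = true → red (r a) (s b)) ∨
        (∃ r s : Fin n → Fin (n ^ (d + 1)), StrictMono r ∧ StrictMono s ∧
          ∀ a b, ¬ red (r a) (s b))) := by
  have h1 : ∀ n d : ℕ, 1 ≤ n → ∀ M : Fin n → Fin n → Bool, RowSparse d M →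
      IsLeast {N | IsRamsey M N} (R M) ∧ R M ≤ n ^ (d + 1) := by
    intro n d hn M hM
    have h := isRamsey hn hM
    exact ⟨⟨Nat.sInf_mem ⟨_, h⟩, fun N hN => Nat.sInf_le hN⟩, Nat.sInf_le h⟩
  refine ⟨h1, ?_, fun n d hn M hM red => main hn hM red⟩
  intro n d hn
  unfold f
  apply Finset.sup_le
  intro M hM
  have hM' : RowSparse d M := by simpa using hM
  exact (h1 n d hn M hM').2

end Pool.Agent.Results.MP_4ef84e_co.RowSparseUpper
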